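import Mathlib
import Pool.Agent.H19.RPDefs
import Pool.Agent.H19.RX.Comb

/-!
MP_39270e_co: the lower bound `f_r(k) ≥ c (r^2 / l) m / (1 + log m)`, `l = 1 + log (k / r)`, `m = min l (loglog (r / l))`, for
all `k ≥ r` with `r ≥ 16 l`.

Edges and transversals of an r-partite r-graph are functions `Fin r → ℕ` (one vertex in
each part); `IntersectinglyCovered k H` and `tau H` are defined in `Pool.Agent.H19.RPDefs`.
-/

namespace Pool.Agent.H19.Old.ExplicitFactor

open H19RP

/-- There is an absolute constant `c > 0` such that for all `2 ≤ r ≤ k` with `r ≥ 16 l`, `l = 1 + log (k / r)`, some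
`k`-intersectingly covered `r`-partite `r`-graph `H` has `tau H ≥ c * (r^2 / l) * (m / (1 + log m))`, where
`m = min l (log log (r / l))`. -/
theorem result : ∃ c : ℝ, 0 < c ∧ ∀ r k : ℕ, 2 ≤ r → r ≤ k → ∀ l m : ℝ,
    l = 1 + Real.log (k / r) → 16 * l ≤ r → m = min l (Real.log (Real.log (r / l))) →
    ∃ H : Finset (Fin r → ℕ), IntersectinglyCovered k H ∧
      c * ((r : ℝ) ^ 2 / l) * (m / (1 + Real.log m)) ≤ tau H :=
  combined_lower

end Pool.Agent.H19.Old.ExplicitFactor
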