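import Mathlib
import Pool.Agent.H19.RPDefs
import Pool.Agent.H19.RPMainLower

/-!
MP_39270e_co: `f_r(k) = O(r^2 / log k)` fails; it fails whenever `r / log k` is unbounded.

Edges and transversals of an r-partite r-graph are functions `Fin r → ℕ` (one vertex in
each part); `IntersectinglyCovered k H` and `tau H` are defined in `Pool.Agent.H19.RPDefs`.
-/

namespace Pool.Agent.H19.Old.MP_39270e_co.FactorNeeded

open H19RP

/-- For every constant `C` there is `R` such that for all `r, k ≥ 2` with `R * log k ≤ r` some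
`k`-intersectingly covered `r`-partite `r`-graph `H` has `tau H ≥ C * r^2 / log k`. -/
theorem result : ∀ C : ℝ, ∃ R : ℝ, ∀ r k : ℕ, 2 ≤ r → 2 ≤ k → R * Real.log k ≤ r →
    ∃ H : Finset (Fin r → ℕ), IntersectinglyCovered k H ∧
      C * (r : ℝ) ^ 2 / Real.log k ≤ tau H :=
  main_lower_all

end Pool.Agent.H19.Old.MP_39270e_co.FactorNeeded
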