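import Pool.Agent.H19.Fc.DimFinal

/-!
# Waring's problem with few generic coefficients: dimension of the set of exceptional coefficients

The second part checks the hypothesis of the first for `m = 1`, `t = 2`, `c = 0`, `u 0 = k`, `u 1 = k - 1`, `k ≥ 3`:
`x_1^k + ... + x_k^k + a (y_1^k + ... + y_(k-1)^k) + b z^k + c w^k`, `2k+1` powers and three generic coefficients.
-/

set_option autoImplicit false

theorem Pool.Agent.Results.MP_efcac8_nt.FewCoefficients.result :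
    (∀ (k m t : ℕ) (u : Fin (m + 1) → ℕ) (c : ℝ), 2 ≤ k → (∀ i, 1 ≤ u i) → (∀ i, u i ≤ u 0) → 0 ≤ c →
      1 + c < 2 ^ t * ((m : ℝ) - c - ∑ i, (1 - 1 / (k : ℝ)) ^ (u i)) →
      dimH {lam : Fin (m + t) → ℝ | (∀ i, 0 < lam i) ∧
        ¬ ∀ eta : ℝ, 0 < eta → ∃ T : ℝ, ∀ tau : ℝ, T ≤ tau →
          ∃ (x : (i : Fin (m + 1)) → Fin (u i) → ℕ) (w : Fin t → ℕ),
            |∑ j, (x 0 j : ℝ) ^ k + ∑ i : Fin m, lam (Fin.castAdd t i) * ∑ j, (x i.succ j : ℝ) ^ k +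
              ∑ j : Fin t, lam (Fin.natAdd m j) * (w j : ℝ) ^ k - tau| < eta * tau ^ (-c)} ≤
        ENNReal.ofReal ((m : ℝ) + t -
          (2 ^ t * ((m : ℝ) - c - ∑ i, (1 - 1 / (k : ℝ)) ^ (u i)) - 1 - c) /
            ((2 ^ (t + 1) - 1) * (1 + c)))) ∧
    (∀ k : ℕ, 3 ≤ k → (1 : ℝ) < 2 ^ 2 * (1 - ((1 - 1 / (k : ℝ)) ^ k + (1 - 1 / (k : ℝ)) ^ (k - 1)))) := by
  refine ⟨fun k m t u c hk hu hu0 hc h => Pool.H19.Fc.dim_general k m t u c hk hu hu0 hc h, fun k hk => ?_⟩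
  have h := Pool.H19.Fc.num k hk
  have h4 : (2 : ℝ) ^ 2 = 4 := by norm_num
  rw [h4]
  linarith
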