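import Pool.Agent.H19.Wb.Final

/-!
# Waring's problem with k + 2 + log_2 k shifted k-th powers, for almost every shift
-/

set_option autoImplicit false

open MeasureTheory

theorem Pool.Agent.Results.MP_efcac8_nt.FewShiftedPowers.result (k s : ℕ) (hk : 4 ≤ k)
    (hs : k + 2 + Nat.log 2 k ≤ s) :
    ∀ᵐ a : Fin s → ℝ, ∀ eta : ℝ, 0 < eta → ∃ T : ℝ, ∀ tau : ℝ, T ≤ tau → ∃ x : Fin s → ℕ,
      tau ≤ ∑ i, ((x i : ℝ) + a i) ^ k ∧ ∑ i, ((x i : ℝ) + a i) ^ k < tau + eta :=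
  Pool.H19.Wb.all_shifts k s hk hs
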