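import Mathlib
import Pool.Agent.H19.RPDefs
import Pool.Agent.H19.RPNear

/-!
MP_39270e_co: lower bound `f_r(k) ≥ (1/1024) r^2 / (1 + log (k/r))` for all `k ≥ r ≥ 2`.

Edges and transversals of an r-partite r-graph are functions `Fin r → ℕ` (one vertex in
each part); `IntersectinglyCovered k H` and `tau H` are defined in `Pool.Agent.H19.RPDefs`.
-/

namespace Pool.Agent.H19.Old.MP_39270e_co.NearDiagonal

open H19RP

/-- For all `2 ≤ r ≤ k` some `k`-intersectingly covered `r`-partite `r`-graph `H` has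
`tau H ≥ (1/1024) * r^2 / (1 + log (k/r))`. -/
theorem result : ∀ r k : ℕ, 2 ≤ r → r ≤ k →
    ∃ H : Finset (Fin r → ℕ), IntersectinglyCovered k H ∧
      (1 / 1024 : ℝ) * (r : ℝ) ^ 2 / (1 + Real.log ((k : ℝ) / r)) ≤ tau H :=
  near_main

end Pool.Agent.H19.Old.MP_39270e_co.NearDiagonal
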